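import Pool.Agent.W5h32.EH.Fin

/-!
All levels below `1` and all lengths.
-/

set_option autoImplicit false

open Finset Filter

namespace Pool.Agent.W5h32.EH

open Pool.Agent.H442R2.EHI (piAP)
open Classical

/-- the sum over the residues for one modulus -/
noncomputable def err (N q : ℕ) (w : ℕ → ℂ) : ℂ :=
  ∑ a ∈ units q, w a * ((piAP N q a -
    (((Icc 1 N).filter (fun p : ℕ => p.Prime)).card : ℝ) / (Nat.totient q : ℝ) : ℝ) : ℂ)

/-- weights with bounded coefficients -/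
def Adm (q : ℕ) (w : ℕ → ℂ) (K : ℝ) : Prop :=
  (∀ χ : DirichletCharacter ℂ q, ‖hat q w χ‖ ≤ 1) ∧ ∑ χ : DirichletCharacter ℂ q, ‖hat q w χ‖ ≤ K

lemma small_bound (N Q : ℕ) (K : ℝ) (hK : 0 ≤ K) : ∃ B : ℝ, ∀ w : ℕ → ℕ → ℂ, ∀ S : Finset ℕ,
    S ⊆ Icc 1 Q → (∀ q ∈ S, Adm q (w q) K) → ∑ q ∈ S, ‖err N q (w q)‖ ≤ B := by
  rcases Nat.eq_zero_or_pos Q with hQ | hQ
  · refine ⟨0, fun w S hS _ => ?_⟩
    subst hQ
    have : S = ∅ := by
      rw [← subset_empty]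
      refine hS.trans ?_
      simp
    rw [this, sum_empty]
  · refine ⟨_, fun w S hS hw => total N 1 Q Q le_rfl hQ w S hS (fun q hq => (hw q hq).1) K hK
      (fun q hq => (hw q hq).2) 1 one_pos 0 (four_zero N Q Q le_rfl).le⟩

lemma card_char (q : ℕ) (hq : 1 ≤ q) : Fintype.card (DirichletCharacter ℂ q) = q.totient := by
  have : NeZero q := ⟨by omega⟩
  rw [← Nat.card_eq_fintype_card]
  exact DirichletCharacter.card_eq_totient_of_hasEnoughRootsOfUnity ℂ q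

/-- large lengths, all levels -/
theorem fin_all (θ ε : ℝ) (h2 : θ < 1) (hε : 0 < ε) (U : ℕ) :
    ∃ C : ℝ, 0 ≤ C ∧ ∃ x0 : ℕ, ∀ N : ℕ, x0 ≤ N → ∀ w : ℕ → ℕ → ℂ, ∀ S : Finset ℕ,
      S ⊆ Icc 1 ⌊(N : ℝ) ^ θ⌋₊ →
      (∀ q ∈ S, Adm q (w q) ((N : ℝ) ^ (max (1 - θ) (1 / 4) - ε))) →
      ∑ q ∈ S, ‖err N q (w q)‖ ≤ C * (N / Real.log N ^ U) := by
  rcases le_or_gt (1 / 2) θ with h1 | h1
  · obtain ⟨C, hC, x0, h⟩ := fin θ ε h1 h2 hε U
    exact ⟨C, hC, x0, fun N hN w S hS hw =>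
      h N hN w S hS (fun q hq => (hw q hq).1) (fun q hq => (hw q hq).2)⟩
  · obtain ⟨C, hC, x0, h⟩ := fin (1 / 2) (1 / 2 - θ) le_rfl (by norm_num) (by linarith) U
    refine ⟨C, hC, max x0 1, fun N hN w S hS hw => ?_⟩
    have hN1 : (1:ℝ) ≤ N := by exact_mod_cast (le_max_right _ _).trans hN
    refine h N ((le_max_left _ _).trans hN) w S ?_ (fun q hq => (hw q hq).1) ?_
    · refine hS.trans (Icc_subset_Icc_right ?_)
      exact Nat.floor_le_floor (rpow_mono' hN1 h1.le)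
    · intro q hq
      have hq1 := hS hq
      rw [mem_Icc] at hq1
      have e1 : max (1 - (1 / 2 : ℝ)) (1 / 4) - (1 / 2 - θ) = θ := by
        rw [max_eq_left (by norm_num)]
        ring
      rw [e1]
      calc ∑ χ : DirichletCharacter ℂ q, ‖hat q (w q) χ‖ ≤ ∑ _χ : DirichletCharacter ℂ q, (1:ℝ) :=
            sum_le_sum fun χ _ => (hw q hq).1 χ
        _ = (q.totient : ℝ) := by
            rw [sum_const, nsmul_eq_mul, mul_one, card_univ, card_char q hq1.1]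
        _ ≤ (q : ℝ) := by exact_mod_cast Nat.totient_le q
        _ ≤ (⌊(N : ℝ) ^ θ⌋₊ : ℝ) := by exact_mod_cast hq1.2
        _ ≤ (N : ℝ) ^ θ := Nat.floor_le (by positivity)

/-- **all lengths, all levels** -/
theorem all (θ ε A : ℝ) (h2 : θ < 1) (hε : 0 < ε) :
    ∃ C : ℝ, ∀ N : ℕ, 2 < N → ∀ w : ℕ → ℕ → ℂ, ∀ S : Finset ℕ,
      S ⊆ Icc 1 ⌊(N : ℝ) ^ θ⌋₊ →
      (∀ q ∈ S, Adm q (w q) ((N : ℝ) ^ (max (1 - θ) (1 / 4) - ε))) →
      ∑ q ∈ S, ‖err N q (w q)‖ ≤ C * (N / Real.log N ^ A) := by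
  obtain ⟨C, hC, x0, h⟩ := fin_all θ ε h2 hε ⌈A⌉₊
  have hs : ∀ N : ℕ, ∃ B : ℝ, ∀ w : ℕ → ℕ → ℂ, ∀ S : Finset ℕ,
      S ⊆ Icc 1 ⌊(N : ℝ) ^ θ⌋₊ →
      (∀ q ∈ S, Adm q (w q) ((N : ℝ) ^ (max (1 - θ) (1 / 4) - ε))) →
      ∑ q ∈ S, ‖err N q (w q)‖ ≤ B := fun N =>
    small_bound N _ _ (by positivity)
  choose B hB using hs
  have hg : ∀ N : ℕ, 2 < N → 0 < (N : ℝ) / Real.log N ^ A ∧
      (N : ℝ) / Real.log N ^ ⌈A⌉₊ ≤ (N : ℝ) / Real.log N ^ A := by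
    intro N hN
    have hN0 : (3:ℝ) ≤ N := by exact_mod_cast hN
    have hlog : 1 ≤ Real.log N := by
      have h3 : Real.exp 1 < 3 := Real.exp_one_lt_three
      rw [Real.le_log_iff_exp_le (by linarith)]
      linarith
    have hp : 0 < Real.log N ^ A := Real.rpow_pos_of_pos (by linarith) _
    refine ⟨by positivity, ?_⟩
    apply div_le_div_of_nonneg_left (by linarith) hp
    rw [← Real.rpow_natCast]
    exact Real.rpow_le_rpow_of_exponent_le hlog (Nat.le_ceil A)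
  refine ⟨C + ∑ N ∈ range x0, |B N| / ((N : ℝ) / Real.log N ^ A) * (if 2 < N then 1 else 0),
    fun N hN w S hS hw => ?_⟩
  obtain ⟨g1, g2⟩ := hg N hN
  have hnn : ∀ M ∈ range x0, 0 ≤ |B M| / ((M : ℝ) / Real.log M ^ A) * (if 2 < M then 1 else 0) := by
    intro M _
    split_ifs with h
    · have := (hg M h).1
      positivity
    · simp
  rcases le_or_gt x0 N with hx | hx
  · refine (h N hx w S hS hw).trans ?_
    have h3 : 0 ≤ ∑ N ∈ range x0, |B N| / ((N : ℝ) / Real.log N ^ A) * (if 2 < N then 1 else 0) :=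
      sum_nonneg hnn
    calc C * (N / Real.log N ^ ⌈A⌉₊) ≤ C * (N / Real.log N ^ A) := mul_le_mul_of_nonneg_left g2 hC
      _ ≤ _ := by
          apply mul_le_mul_of_nonneg_right _ g1.le
          linarith
  · refine (hB N w S hS hw).trans ?_
    have h3 := single_le_sum hnn (mem_range.2 hx)
    rw [if_pos hN, mul_one] at h3
    calc B N ≤ |B N| := le_abs_self _
      _ = |B N| / ((N : ℝ) / Real.log N ^ A) * ((N : ℝ) / Real.log N ^ A) :=
          (div_mul_cancel₀ _ g1.ne').symm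
      _ ≤ _ := by
          apply mul_le_mul_of_nonneg_right _ g1.le
          linarith

end Pool.Agent.W5h32.EH
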