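import Pool.Agent.W5h32.EH.Key

/-!
The average over the moduli of the discrepancies against weights.
-/

set_option autoImplicit false

open Finset

namespace Pool.Agent.W5h32.EH

open Pool.Agent.H398R2.BV (Prim card_prim_le)
open Pool.Agent.Helper112
open Pool.Agent.H442R2.EHI (piAP)
open Pool.Agent.H441R3.BV
open Pool.Agent.TH926.EH
open Classical

lemma swap_log (Q : ℕ) (H : ℕ → ℝ) (hH : ∀ f, 0 ≤ H f) :
    ∑ d ∈ Icc 1 Q, (1 / (Nat.totient d : ℝ)) * ∑ f ∈ d.divisors.filter (fun f => f ≠ 1), H f ≤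
      (1 + Real.log Q) ^ 2 * ∑ f ∈ Icc 2 Q, (1 / (Nat.totient f : ℝ)) * H f := by
  refine (swap Q H hH).trans ?_
  have hlQ : 0 ≤ Real.log Q := Real.log_natCast_nonneg Q
  rw [mul_sum]
  apply sum_le_sum
  intro f hf
  rw [mem_Icc] at hf
  have hf1 : (1:ℝ) ≤ f := by
    have : 1 ≤ f := by omega
    exact_mod_cast this
  have hfQ : (f:ℝ) ≤ Q := by exact_mod_cast hf.2
  have h2 : 0 ≤ Real.log (Q / f) :=
    Real.log_nonneg (by rw [le_div_iff₀ (by linarith)]; linarith)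
  have h3 : Real.log (Q / f) ≤ Real.log Q := by
    apply Real.log_le_log
    · apply div_pos <;> linarith
    · exact div_le_self (by linarith) hf1
  have h4 : 0 ≤ (1 / (Nat.totient f : ℝ)) * H f := mul_nonneg (by positivity) (hH f)
  rw [mul_comm]
  apply mul_le_mul_of_nonneg_right _ h4
  apply pow_le_pow_left₀ (by linarith)
  linarith

lemma dy_plain (D i0 : ℕ) (hD : 1 ≤ D) (g : ℕ → ℝ) (hg : ∀ f, 0 ≤ g f) (R A : ℝ) (hR : 0 ≤ R)
    (hA : 0 ≤ A) (h0 : ∑ f ∈ Icc 2 (2 ^ i0), g f ≤ 0)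
    (h1 : ∀ i, i0 ≤ i → 2 ^ i ≤ D → ∑ f ∈ Ioc (2 ^ i) (2 * 2 ^ i), g f ≤ A * 2 ^ i + R) :
    ∑ f ∈ Icc 2 D, g f ≤ 15 * A * D + (Nat.log 2 D + 1) * (1 + Real.log D) ^ 2 * R := by
  have h2 := dyadic D i0 hD g hg 0 R A hR hA h0 h1
  have h3 : ∑ f ∈ Icc 2 D, g f ≤ ∑ f ∈ Icc 2 D, g f * (1 + Real.log (D / f)) ^ 2 := by
    apply sum_le_sum
    intro f hf
    rw [mem_Icc] at hf
    have hf1 : (1:ℝ) ≤ f := by
      have : 1 ≤ f := by omega
      exact_mod_cast this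
    have hfD : (f:ℝ) ≤ D := by exact_mod_cast hf.2
    have h4 : 0 ≤ Real.log (D / f) :=
      Real.log_nonneg (by rw [le_div_iff₀ (by linarith)]; linarith)
    have h5 : 1 ≤ (1 + Real.log (D / f)) ^ 2 := by nlinarith
    calc g f = g f * 1 := (mul_one _).symm
      _ ≤ _ := mul_le_mul_of_nonneg_left h5 (hg f)
  linarith

/-- the middle range of the conductors -/
lemma mid_sum (N R R2 Q : ℕ) (hR : 1 ≤ R) :
    ∑ f ∈ Icc 2 Q, (1 / (Nat.totient f : ℝ)) * G {f | R < f ∧ f ≤ R2} 2 N f ≤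
      720 * N * (min Q R2 : ℕ) + (Nat.log 2 (min Q R2) + 1) * (1 + Real.log (min Q R2 : ℕ)) ^ 2 *
        (24 * (N:ℝ) ^ 2 / R) := by
  set D := min Q R2 with hD
  have e1 : ∑ f ∈ Icc 2 Q, (1 / (Nat.totient f : ℝ)) * G {f | R < f ∧ f ≤ R2} 2 N f =
      ∑ f ∈ Icc 2 D, (1 / (Nat.totient f : ℝ)) * G {f | R < f ∧ f ≤ R2} 2 N f := by
    symm
    apply sum_subset
    · exact Icc_subset_Icc_right (min_le_left _ _)
    · intro f hf hf2
      rw [mem_Icc] at hf hf2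
      unfold G
      rw [if_neg, mul_zero]
      simp only [Set.mem_ofPred_eq]
      rw [hD] at hf2
      omega
  rw [e1]
  have e2 : ∀ f ∈ Icc 2 D, (1 / (Nat.totient f : ℝ)) * G {f | R < f ∧ f ≤ R2} 2 N f ≤
      (1 / (Nat.totient f : ℝ)) * Gl N R f := by
    intro f _
    apply mul_le_mul_of_nonneg_left _ (by positivity)
    unfold G Gl
    simp only [Set.mem_ofPred_eq]
    by_cases h1 : R < f
    · rw [if_pos h1]
      split_ifs
      · norm_num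
      · positivity
    · rw [if_neg (by tauto), if_neg h1]
  refine (sum_le_sum e2).trans ?_
  rcases Nat.eq_zero_or_pos D with h0 | h0
  · rw [h0]
    simp only [show Icc 2 0 = (∅ : Finset ℕ) from rfl, sum_empty]
    positivity
  have h0' : ∑ f ∈ Icc 2 (2 ^ Nat.log 2 R), (1 / (Nat.totient f : ℝ)) * Gl N R f ≤ 0 := by
    apply le_of_eq
    apply sum_eq_zero
    intro f hf
    rw [mem_Icc] at hf
    have h1 : 2 ^ Nat.log 2 R ≤ R := Nat.pow_log_le_self 2 (by omega)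
    unfold Gl
    rw [if_neg (by omega), mul_zero]
  have h1 := dy_plain D (Nat.log 2 R) h0 (fun f => (1 / (Nat.totient f : ℝ)) * Gl N R f)
    (fun f => mul_nonneg (by positivity) (Gl_nonneg N R f)) (24 * (N:ℝ) ^ 2 / R) (48 * N)
    (by positivity) (by positivity) h0' (by
      intro i hi _
      have h2 : R < 2 * 2 ^ i := by
        have h3 : R < 2 ^ (Nat.log 2 R + 1) := Nat.lt_pow_succ_log_self (by norm_num) R
        have h4 : 2 ^ (Nat.log 2 R + 1) ≤ 2 ^ (i + 1) := Nat.pow_le_pow_right (by norm_num) (by omega)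
        rw [pow_succ 2 i] at h4
        omega
      have h5 := high_dyadic N R (2 ^ i) (by positivity) (by exact_mod_cast h2.le) hR
      push_cast at h5
      exact h5)
  refine h1.trans (le_of_eq ?_)
  ring

/-- large conductors in a dyadic interval -/
lemma four_dyadic (N R2 F : ℕ) (hF : 0 < F) (hRF : (R2:ℝ) ≤ 2 * F) (hR : 1 ≤ R2) :
    ∑ f ∈ Ioc F (2 * F), (1 / (Nat.totient f : ℝ)) * G {f | R2 < f} 4 N f ≤
      384 * (N:ℝ) ^ 2 * F + 192 * (N:ℝ) ^ 4 / R2 := by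
  have hF0 : (0:ℝ) < F := by exact_mod_cast hF
  have hR0 : (0:ℝ) < R2 := by exact_mod_cast hR
  have h1 : ∀ f ∈ Ioc F (2 * F), (1 / (Nat.totient f : ℝ)) * G {f | R2 < f} 4 N f ≤
      (8 / F) * (((f : ℝ) / (Nat.totient f : ℝ)) * ∑ ψ ∈ Prim f, ‖PS N f ψ‖ ^ 4) := by
    intro f hf
    rw [mem_Ioc] at hf
    have hφ : (0 : ℝ) < Nat.totient f := by exact_mod_cast Nat.totient_pos.mpr (by omega)
    have hfF : (F:ℝ) ≤ f := by exact_mod_cast hf.1.le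
    have hS : 0 ≤ ∑ ψ ∈ Prim f, ‖PS N f ψ‖ ^ 4 := sum_nonneg fun _ _ => by positivity
    have h2 : G {f | R2 < f} 4 N f ≤ 8 * ∑ ψ ∈ Prim f, ‖PS N f ψ‖ ^ 4 := by
      unfold G
      split_ifs
      · norm_num
      · positivity
    calc (1 / (Nat.totient f : ℝ)) * G {f | R2 < f} 4 N f ≤
        (1 / (Nat.totient f : ℝ)) * (8 * ∑ ψ ∈ Prim f, ‖PS N f ψ‖ ^ 4) := by gcongr
      _ = (8 / F) * (((F : ℝ) / (Nat.totient f : ℝ)) * ∑ ψ ∈ Prim f, ‖PS N f ψ‖ ^ 4) := by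
          field_simp
      _ ≤ _ := by gcongr
  refine (sum_le_sum h1).trans ?_
  rw [← mul_sum]
  have h2 : ∑ f ∈ Ioc F (2 * F), ((f : ℝ) / (Nat.totient f : ℝ)) * ∑ ψ ∈ Prim f, ‖PS N f ψ‖ ^ 4 ≤
      ∑ f ∈ Icc 1 (2 * F), ((f : ℝ) / (Nat.totient f : ℝ)) * ∑ ψ ∈ Prim f, ‖PS N f ψ‖ ^ 4 := by
    apply sum_le_sum_of_subset_of_nonneg
    · intro f hf
      rw [mem_Ioc] at hf
      rw [mem_Icc]
      omega
    · intro f _ _
      exact mul_nonneg (by positivity) (sum_nonneg fun _ _ => by positivity)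
  have h3 := ls_four N (2 * F)
  calc (8 / (F:ℝ)) * ∑ f ∈ Ioc F (2 * F), ((f : ℝ) / (Nat.totient f : ℝ)) *
        ∑ ψ ∈ Prim f, ‖PS N f ψ‖ ^ 4
      ≤ (8 / (F:ℝ)) * (12 * ((N : ℝ) ^ 2 + ((2 * F : ℕ):ℝ) ^ 2) * (N : ℝ) ^ 2) := by
        apply mul_le_mul_of_nonneg_left (h2.trans h3) (by positivity)
    _ = 384 * (N:ℝ) ^ 2 * F + 96 * (N:ℝ) ^ 4 / F := by
        push_cast
        field_simp
        ring
    _ ≤ 384 * (N:ℝ) ^ 2 * F + 192 * (N:ℝ) ^ 4 / R2 := by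
        apply add_le_add le_rfl
        rw [div_le_div_iff₀ hF0 hR0]
        have : 0 ≤ (N:ℝ) ^ 4 := by positivity
        nlinarith

/-- large conductors -/
lemma four_sum (N R2 Q : ℕ) (hR : 1 ≤ R2) (hQ : 1 ≤ Q) :
    ∑ f ∈ Icc 2 Q, (1 / (Nat.totient f : ℝ)) * G {f | R2 < f} 4 N f ≤
      5760 * (N:ℝ) ^ 2 * Q + (Nat.log 2 Q + 1) * (1 + Real.log Q) ^ 2 * (192 * (N:ℝ) ^ 4 / R2) := by
  have h0' : ∑ f ∈ Icc 2 (2 ^ Nat.log 2 R2), (1 / (Nat.totient f : ℝ)) * G {f | R2 < f} 4 N f ≤ 0 := by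
    apply le_of_eq
    apply sum_eq_zero
    intro f hf
    rw [mem_Icc] at hf
    have h1 : 2 ^ Nat.log 2 R2 ≤ R2 := Nat.pow_log_le_self 2 (by omega)
    unfold G
    rw [if_neg, mul_zero]
    simp only [Set.mem_ofPred_eq]
    omega
  have h1 := dy_plain Q (Nat.log 2 R2) hQ (fun f => (1 / (Nat.totient f : ℝ)) * G {f | R2 < f} 4 N f)
    (fun f => mul_nonneg (by positivity) (G_nonneg _ 4 N f)) (192 * (N:ℝ) ^ 4 / R2) (384 * (N:ℝ) ^ 2)
    (by positivity) (by positivity) h0' (by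
      intro i hi _
      have h2 : R2 < 2 * 2 ^ i := by
        have h3 : R2 < 2 ^ (Nat.log 2 R2 + 1) := Nat.lt_pow_succ_log_self (by norm_num) R2
        have h4 : 2 ^ (Nat.log 2 R2 + 1) ≤ 2 ^ (i + 1) := Nat.pow_le_pow_right (by norm_num) (by omega)
        rw [pow_succ 2 i] at h4
        omega
      have h5 := four_dyadic N R2 (2 ^ i) (by positivity) (by exact_mod_cast h2.le) hR
      push_cast at h5
      exact h5)
  refine h1.trans (le_of_eq ?_)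
  ring

lemma four_zero (N R2 Q : ℕ) (hQ : Q ≤ R2) :
    ∑ f ∈ Icc 2 Q, (1 / (Nat.totient f : ℝ)) * G {f | R2 < f} 4 N f = 0 := by
  apply sum_eq_zero
  intro f hf
  rw [mem_Icc] at hf
  unfold G
  rw [if_neg, mul_zero]
  simp only [Set.mem_ofPred_eq]
  omega

lemma omega_le' (d Q : ℕ) (hd : 1 ≤ d) (hQ : d ≤ Q) : (d.primeFactors.card : ℝ) ≤ 2 * Real.log Q := by
  refine (omega_log d hd).trans ?_
  have h1 : (0:ℝ) < d := by exact_mod_cast hd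
  have h2 : (d:ℝ) ≤ Q := by exact_mod_cast hQ
  have := Real.log_le_log h1 h2
  linarith

/-- **the average over the moduli** -/
theorem total (N R R2 Q : ℕ) (hR : 1 ≤ R) (hQ : 1 ≤ Q) (w : ℕ → ℕ → ℂ)
    (S : Finset ℕ) (hS : S ⊆ Icc 1 Q)
    (hw : ∀ q ∈ S, ∀ χ : DirichletCharacter ℂ q, ‖hat q (w q) χ‖ ≤ 1) (K : ℝ) (hK : 0 ≤ K)
    (hw2 : ∀ q ∈ S, ∑ χ : DirichletCharacter ℂ q, ‖hat q (w q) χ‖ ≤ K)
    (W : ℝ) (hW : 0 < W) (H4 : ℝ)
    (hH4 : ∑ f ∈ Icc 2 Q, (1 / (Nat.totient f : ℝ)) * G {f | R2 < f} 4 N f ≤ H4) :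
    ∑ q ∈ S, ‖∑ a ∈ units q, w q a * ((piAP N q a -
      (((Icc 1 N).filter (fun p : ℕ => p.Prime)).card : ℝ) / (Nat.totient q : ℝ) : ℝ) : ℂ)‖ ≤
      (1 + Real.log Q) ^ 2 * (K * W) +
      ((1 + Real.log Q) ^ 2 *
        ∑ f ∈ Icc 2 R, (1 / (Nat.totient f : ℝ)) * ∑ ψ ∈ Prim f, ‖PS N f ψ‖ + Q * (2 * Real.log Q)) +
      ((1 + Real.log Q) ^ 2 * (720 * N * (min Q R2 : ℕ) + (Nat.log 2 (min Q R2) + 1) *
        (1 + Real.log (min Q R2 : ℕ)) ^ 2 * (24 * (N:ℝ) ^ 2 / R)) +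
          Q * (2 * (2 * Real.log Q) ^ 2)) / W +
      ((1 + Real.log Q) ^ 2 * H4 + Q * (8 * (2 * Real.log Q) ^ 4)) / W ^ 3 + Q * (2 * Real.log Q) := by
  have hlQ : 0 ≤ Real.log Q := Real.log_natCast_nonneg Q
  set p1 : ℝ := (((Icc 1 N).filter (fun p : ℕ => p.Prime)).card : ℝ) with hp1
  set om : ℕ → ℝ := fun q => (q.primeFactors.card : ℝ) with hom
  -- the four parts
  have k1 : ∀ q ∈ S, ‖∑ a ∈ units q, w q a * ((piAP N q a - p1 / (Nat.totient q : ℝ) : ℝ) : ℂ)‖ ≤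
      (1 / (Nat.totient q : ℝ)) * (K * W) +
      (1 / (Nat.totient q : ℝ)) * ∑ χ ∈ lowS q R, ‖PS N q χ‖ +
      (1 / (Nat.totient q : ℝ)) * (∑ χ ∈ cS q {f | R < f ∧ f ≤ R2}, ‖PS N q χ‖ ^ 2) / W +
      (1 / (Nat.totient q : ℝ)) * (∑ χ ∈ cS q {f | R2 < f}, ‖PS N q χ‖ ^ 4) / W ^ 3 + om q := by
    intro q hq
    have hq1 := hS hq
    rw [mem_Icc] at hq1
    refine (key N q R R2 hq1.1 (w q) (hw q hq) W hW).trans ?_
    have h1 : (∑ χ : DirichletCharacter ℂ q, ‖hat q (w q) χ‖) * W ≤ K * W :=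
      mul_le_mul_of_nonneg_right (hw2 q hq) hW.le
    have h2 : 0 ≤ 1 / (Nat.totient q : ℝ) := by positivity
    calc _ ≤ (1 / (Nat.totient q : ℝ)) * (K * W +
        ∑ χ ∈ lowS q R, ‖PS N q χ‖ + (∑ χ ∈ cS q {f | R < f ∧ f ≤ R2}, ‖PS N q χ‖ ^ 2) / W +
        (∑ χ ∈ cS q {f | R2 < f}, ‖PS N q χ‖ ^ 4) / W ^ 3) + q.primeFactors.card := by
          gcongr
      _ = _ := by
          simp only [hom]
          ring
  refine (sum_le_sum k1).trans ?_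
  have hnn : ∀ q : ℕ, 0 ≤ (1 / (Nat.totient q : ℝ)) * (K * W) +
      (1 / (Nat.totient q : ℝ)) * ∑ χ ∈ lowS q R, ‖PS N q χ‖ +
      (1 / (Nat.totient q : ℝ)) * (∑ χ ∈ cS q {f | R < f ∧ f ≤ R2}, ‖PS N q χ‖ ^ 2) / W +
      (1 / (Nat.totient q : ℝ)) * (∑ χ ∈ cS q {f | R2 < f}, ‖PS N q χ‖ ^ 4) / W ^ 3 + om q := by
    intro q
    have := Nat.cast_nonneg (α := ℝ) q.primeFactors.card
    have : 0 ≤ om q := this
    positivity
  refine (sum_le_sum_of_subset_of_nonneg hS fun q _ _ => hnn q).trans ?_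
  rw [sum_add_distrib, sum_add_distrib, sum_add_distrib, sum_add_distrib]
  have hcardQ : ((Icc 1 Q).card : ℝ) = Q := by rw [Nat.card_Icc]; simp
  have p1' : ∑ q ∈ Icc 1 Q, (1 / (Nat.totient q : ℝ)) * (K * W) ≤ (1 + Real.log Q) ^ 2 * (K * W) := by
    rw [← sum_mul]
    exact mul_le_mul_of_nonneg_right (sum_inv_tot Q) (by positivity)
  have p5' : ∑ q ∈ Icc 1 Q, om q ≤ Q * (2 * Real.log Q) := by
    calc ∑ q ∈ Icc 1 Q, om q ≤ ∑ _q ∈ Icc 1 Q, 2 * Real.log Q := by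
          apply sum_le_sum
          intro q hq
          rw [mem_Icc] at hq
          exact omega_le' q Q hq.1 hq.2
      _ = Q * (2 * Real.log Q) := by rw [sum_const, nsmul_eq_mul, hcardQ]
  have p2' : ∑ q ∈ Icc 1 Q, (1 / (Nat.totient q : ℝ)) * ∑ χ ∈ lowS q R, ‖PS N q χ‖ ≤
      (1 + Real.log Q) ^ 2 *
        ∑ f ∈ Icc 2 R, (1 / (Nat.totient f : ℝ)) * ∑ ψ ∈ Prim f, ‖PS N f ψ‖ + Q * (2 * Real.log Q) := by
    have h1 : ∀ q ∈ Icc 1 Q, (1 / (Nat.totient q : ℝ)) * ∑ χ ∈ lowS q R, ‖PS N q χ‖ ≤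
        (1 / (Nat.totient q : ℝ)) * ∑ f ∈ q.divisors.filter (fun f => f ≠ 1), Gs N R f + om q := by
      intro q hq
      rw [mem_Icc] at hq
      have hφ : (0 : ℝ) < Nat.totient q := by exact_mod_cast Nat.totient_pos.mpr (by omega)
      have := sum_low N q R hq.1
      calc _ ≤ (1 / (Nat.totient q : ℝ)) * (∑ f ∈ q.divisors.filter (fun f => f ≠ 1), Gs N R f +
            Nat.totient q * q.primeFactors.card) := by gcongr
        _ = _ := by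
            simp only [hom]
            field_simp
    refine (sum_le_sum h1).trans ?_
    rw [sum_add_distrib]
    exact add_le_add (low_sum N R Q) p5'
  have gen : ∀ (I : Set ℕ) (k : ℕ) (c : ℝ), 0 ≤ c → (2:ℝ) ^ (k - 1) ≤ c →
      ∑ q ∈ Icc 1 Q, (1 / (Nat.totient q : ℝ)) * (∑ χ ∈ cS q I, ‖PS N q χ‖ ^ k) ≤
      (1 + Real.log Q) ^ 2 * ∑ f ∈ Icc 2 Q, (1 / (Nat.totient f : ℝ)) * G I k N f +
        Q * (c * (2 * Real.log Q) ^ k) := by
    intro I k c hc0 hc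
    have h1 : ∀ q ∈ Icc 1 Q, (1 / (Nat.totient q : ℝ)) * (∑ χ ∈ cS q I, ‖PS N q χ‖ ^ k) ≤
        (1 / (Nat.totient q : ℝ)) * ∑ f ∈ q.divisors.filter (fun f => f ≠ 1), G I k N f +
          c * (2 * Real.log Q) ^ k := by
      intro q hq
      rw [mem_Icc] at hq
      have hφ : (0 : ℝ) < Nat.totient q := by exact_mod_cast Nat.totient_pos.mpr (by omega)
      have h2 := sum_cond N q k I hq.1
      have h3 := omega_le' q Q hq.1 hq.2
      have h4 : (q.primeFactors.card : ℝ) ^ k ≤ (2 * Real.log Q) ^ k :=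
        pow_le_pow_left₀ (Nat.cast_nonneg _) h3 k
      calc _ ≤ (1 / (Nat.totient q : ℝ)) * (∑ f ∈ q.divisors.filter (fun f => f ≠ 1), G I k N f +
            2 ^ (k - 1) * Nat.totient q * (q.primeFactors.card : ℝ) ^ k) := by gcongr
        _ = (1 / (Nat.totient q : ℝ)) * (∑ f ∈ q.divisors.filter (fun f => f ≠ 1), G I k N f) +
            2 ^ (k - 1) * (q.primeFactors.card : ℝ) ^ k := by
            field_simp
        _ ≤ _ := by gcongr
    refine (sum_le_sum h1).trans ?_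
    rw [sum_add_distrib, sum_const, nsmul_eq_mul, hcardQ]
    exact add_le_add (swap_log Q _ (G_nonneg I k N)) le_rfl
  have p3' : ∑ q ∈ Icc 1 Q, (1 / (Nat.totient q : ℝ)) *
      (∑ χ ∈ cS q {f | R < f ∧ f ≤ R2}, ‖PS N q χ‖ ^ 2) / W ≤
      ((1 + Real.log Q) ^ 2 * (720 * N * (min Q R2 : ℕ) + (Nat.log 2 (min Q R2) + 1) *
        (1 + Real.log (min Q R2 : ℕ)) ^ 2 * (24 * (N:ℝ) ^ 2 / R)) +
          Q * (2 * (2 * Real.log Q) ^ 2)) / W := by
    rw [← sum_div]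
    apply div_le_div_of_nonneg_right _ hW.le
    refine (gen _ 2 2 (by norm_num) (by norm_num)).trans ?_
    apply add_le_add _ le_rfl
    apply mul_le_mul_of_nonneg_left (mid_sum N R R2 Q hR) (by positivity)
  have p4' : ∑ q ∈ Icc 1 Q, (1 / (Nat.totient q : ℝ)) *
      (∑ χ ∈ cS q {f | R2 < f}, ‖PS N q χ‖ ^ 4) / W ^ 3 ≤
      ((1 + Real.log Q) ^ 2 * H4 + Q * (8 * (2 * Real.log Q) ^ 4)) / W ^ 3 := by
    rw [← sum_div]
    apply div_le_div_of_nonneg_right _ (by positivity)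
    refine (gen _ 4 8 (by norm_num) (by norm_num)).trans ?_
    apply add_le_add _ le_rfl
    apply mul_le_mul_of_nonneg_left hH4 (by positivity)
  linarith

end Pool.Agent.W5h32.EH
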