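import Pool.Agent.W5h32.EH.All

/-!
The weight of a coset of a subgroup of the group of the reduced classes.
-/

set_option autoImplicit false

open Finset Filter

namespace Pool.Agent.W5h32.EH

open Pool.Agent.H442R2.EHI (piAP)
open Classical

variable {q : ℕ}

/-- the weight of the coset `c * H` -/
noncomputable def cz (q : ℕ) (H : Subgroup (ZMod q)ˣ) (c : (ZMod q)ˣ) (z : ZMod q) : ℂ :=
  if ∃ h ∈ H, z = ((c * h : (ZMod q)ˣ) : ZMod q) then 1 / (Nat.card H : ℂ) else 0

/-- the weight of the coset `c * H` -/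
noncomputable def cw (q : ℕ) (H : Subgroup (ZMod q)ˣ) (c : (ZMod q)ˣ) (a : ℕ) : ℂ :=
  cz q H c (a : ZMod q)

lemma units_sum [NeZero q] (g : ZMod q → ℂ) :
    ∑ a ∈ units q, g (a : ZMod q) = ∑ u : (ZMod q)ˣ, g (u : ZMod q) := by
  symm
  apply sum_bij (fun (a : (ZMod q)ˣ) _ => (a : ZMod q).val)
  · intro a _
    unfold units
    rw [mem_filter, mem_range]
    exact ⟨ZMod.val_lt _, ZMod.val_coe_unit_coprime a⟩
  · intro a _ b _ hab
    exact Units.ext (ZMod.val_injective q hab)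
  · intro b hb
    unfold units at hb
    rw [mem_filter, mem_range] at hb
    refine ⟨ZMod.unitOfCoprime b hb.2, mem_univ _, ?_⟩
    rw [ZMod.coe_unitOfCoprime, ZMod.val_natCast, Nat.mod_eq_of_lt hb.1]
  · intro a _
    rw [ZMod.natCast_zmod_val]

lemma cw_sum [NeZero q] (H : Subgroup (ZMod q)ˣ) (c : (ZMod q)ˣ) (g : ZMod q → ℂ) :
    ∑ a ∈ units q, cw q H c a * g (a : ZMod q) =
      (1 / (Nat.card H : ℂ)) * ∑ h : H, g ((c * (h : (ZMod q)ˣ) : (ZMod q)ˣ) : ZMod q) := by
  have e0 : ∑ a ∈ units q, cw q H c a * g (a : ZMod q) = ∑ u : (ZMod q)ˣ, cz q H c u * g u :=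
    units_sum (fun z => cz q H c z * g z)
  rw [e0]
  have h1 : ∀ u : (ZMod q)ˣ, cz q H c u * g u =
      if c⁻¹ * u ∈ H then (1 / (Nat.card H : ℂ)) * g u else 0 := by
    intro u
    unfold cz
    have h2 : (∃ h ∈ H, (u : ZMod q) = ((c * h : (ZMod q)ˣ) : ZMod q)) ↔ c⁻¹ * u ∈ H := by
      constructor
      · rintro ⟨h, hh, he⟩
        have : u = c * h := Units.ext he
        rw [this, inv_mul_cancel_left]
        exact hh
      · intro h
        exact ⟨c⁻¹ * u, h, by rw [mul_inv_cancel_left]⟩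
    by_cases h3 : c⁻¹ * u ∈ H
    · rw [if_pos (h2.2 h3), if_pos h3]
    · rw [if_neg (fun h => h3 (h2.1 h)), if_neg h3, zero_mul]
  rw [sum_congr rfl fun u _ => h1 u, ← sum_filter, mul_sum]
  symm
  apply sum_bij (fun (h : H) _ => c * (h : (ZMod q)ˣ))
  · intro h _
    rw [mem_filter]
    refine ⟨mem_univ _, ?_⟩
    rw [inv_mul_cancel_left]
    exact h.2
  · intro a _ b _ hab
    exact Subtype.ext (mul_left_cancel hab)
  · intro u hu
    rw [mem_filter] at hu
    exact ⟨⟨c⁻¹ * u, hu.2⟩, mem_univ _, by simp⟩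
  · intro h _
    rfl

/-- the sum of a character over a subgroup -/
lemma char_sub [NeZero q] (H : Subgroup (ZMod q)ˣ) (χ : DirichletCharacter ℂ q) :
    ∑ h : H, χ ((h : (ZMod q)ˣ) : ZMod q) = 0 ∨
      ∑ h : H, χ ((h : (ZMod q)ˣ) : ZMod q) = (Nat.card H : ℂ) := by
  by_cases h0 : ∀ h : H, χ ((h : (ZMod q)ˣ) : ZMod q) = 1
  · right
    rw [sum_congr rfl fun h _ => h0 h, sum_const, nsmul_eq_mul, mul_one, card_univ,
      Nat.card_eq_fintype_card]
  · left
    push Not at h0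
    obtain ⟨h', hh'⟩ := h0
    have h1 : χ ((h' : (ZMod q)ˣ) : ZMod q) * ∑ h : H, χ ((h : (ZMod q)ˣ) : ZMod q) =
        ∑ h : H, χ ((h : (ZMod q)ˣ) : ZMod q) := by
      rw [mul_sum]
      have h2 : ∀ h : H, χ ((h' : (ZMod q)ˣ) : ZMod q) * χ ((h : (ZMod q)ˣ) : ZMod q) =
          χ (((h' * h : H) : (ZMod q)ˣ) : ZMod q) := by
        intro h
        rw [← map_mul]
        push_cast
        rfl
      rw [sum_congr rfl fun h _ => h2 h]
      exact Equiv.sum_comp (Equiv.mulLeft h') (fun h : H => χ ((h : (ZMod q)ˣ) : ZMod q))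
    have h3 : (χ ((h' : (ZMod q)ˣ) : ZMod q) - 1) * ∑ h : H, χ ((h : (ZMod q)ˣ) : ZMod q) = 0 := by
      rw [sub_mul, h1]
      ring
    rcases mul_eq_zero.1 h3 with h4 | h4
    · exact absurd (sub_eq_zero.1 h4) hh'
    · exact h4

lemma hat_cw [NeZero q] (H : Subgroup (ZMod q)ˣ) (c : (ZMod q)ˣ) (χ : DirichletCharacter ℂ q) :
    hat q (cw q H c) χ = χ (c : ZMod q) * ((1 / (Nat.card H : ℂ)) *
      ∑ h : H, χ ((h : (ZMod q)ˣ) : ZMod q)) := by
  unfold hat
  rw [cw_sum H c (fun x => χ x), mul_sum, mul_sum, mul_sum]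
  apply sum_congr rfl
  intro h _
  push_cast
  rw [map_mul]
  ring

lemma card_pos' [NeZero q] (H : Subgroup (ZMod q)ˣ) : (0:ℝ) < Nat.card H := by
  exact_mod_cast Nat.card_pos

lemma hat_norm [NeZero q] (H : Subgroup (ZMod q)ˣ) (c : (ZMod q)ˣ) (χ : DirichletCharacter ℂ q) :
    ‖hat q (cw q H c) χ‖ ≤ 1 ∧ ((‖hat q (cw q H c) χ‖ : ℝ) : ℂ) =
      (1 / (Nat.card H : ℂ)) * ∑ h : H, χ ((h : (ZMod q)ˣ) : ZMod q) := by
  have hc : ‖χ (c : ZMod q)‖ = 1 := by
    have := DirichletCharacter.unit_norm_eq_one χ c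
    exact this
  have hp : (Nat.card H : ℂ) ≠ 0 := by
    have := card_pos' H
    exact_mod_cast this.ne'
  rw [hat_cw, norm_mul, hc, one_mul]
  rcases char_sub H χ with h | h
  · rw [h]
    simp
  · rw [h, one_div, inv_mul_cancel₀ hp]
    simp

lemma adm_cw [NeZero q] (H : Subgroup (ZMod q)ˣ) (c : (ZMod q)ˣ) (K : ℝ) (hK : (H.index : ℝ) ≤ K) :
    Adm q (cw q H c) K := by
  refine ⟨fun χ => (hat_norm H c χ).1, ?_⟩
  refine le_trans (le_of_eq ?_) hK
  have h1 : ((∑ χ : DirichletCharacter ℂ q, ‖hat q (cw q H c) χ‖ : ℝ) : ℂ) = ((H.index : ℝ) : ℂ) := by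
    rw [Complex.ofReal_sum, sum_congr rfl fun χ _ => (hat_norm H c χ).2, ← mul_sum, sum_comm]
    have h2 : ∀ h : H, ∑ χ : DirichletCharacter ℂ q, χ ((h : (ZMod q)ˣ) : ZMod q) =
        if h = 1 then (q.totient : ℂ) else 0 := by
      intro h
      have h3 := DirichletCharacter.sum_characters_eq ℂ (((h : (ZMod q)ˣ) : ZMod q))
      have h4 : (((h : (ZMod q)ˣ) : ZMod q) = 1) ↔ h = 1 := by
        constructor
        · intro h5
          apply Subtype.ext
          apply Units.ext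
          rw [h5]
          simp
        · intro h5
          rw [h5]
          simp
      rw [h3]
      by_cases h5 : h = 1
      · rw [if_pos h5, if_pos (h4.2 h5)]
      · rw [if_neg h5, if_neg (fun h6 => h5 (h4.1 h6))]
    rw [sum_congr rfl fun h _ => h2 h, sum_ite_eq' univ (1 : H), if_pos (mem_univ _)]
    have h5 := Subgroup.card_mul_index H
    have h6 : Nat.card (ZMod q)ˣ = q.totient := by
      rw [Nat.card_eq_fintype_card, ZMod.card_units_eq_totient]
    rw [h6] at h5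
    have hp : (Nat.card H : ℂ) ≠ 0 := by
      have := card_pos' H
      exact_mod_cast this.ne'
    rw [← h5]
    push_cast
    field_simp
  exact_mod_cast h1

/-- the primes in a coset -/
noncomputable def cosetCount (x q : ℕ) (H : Subgroup (ZMod q)ˣ) (c : (ZMod q)ˣ) : ℕ :=
  ((Icc 1 x).filter (fun p : ℕ => p.Prime ∧
    ∃ h ∈ H, (p : ZMod q) = ((c * h : (ZMod q)ˣ) : ZMod q))).card

lemma err_cw [NeZero q] (x : ℕ) (H : Subgroup (ZMod q)ˣ) (c : (ZMod q)ˣ) :
    err x q (cw q H c) = (((1 / (Nat.card H : ℝ)) * ((cosetCount x q H c : ℝ) -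
      (Nat.card H : ℝ) * (((Icc 1 x).filter (fun p : ℕ => p.Prime)).card : ℝ) /
        (Nat.totient q : ℝ)) : ℝ) : ℂ) := by
  have hp : (Nat.card H : ℂ) ≠ 0 := by
    have := card_pos' H
    exact_mod_cast this.ne'
  unfold err
  have h1 : ∀ a ∈ units q, cw q H c a * ((piAP x q a -
      (((Icc 1 x).filter (fun p : ℕ => p.Prime)).card : ℝ) / (Nat.totient q : ℝ) : ℝ) : ℂ) =
      ∑ p ∈ (Icc 1 x).filter Nat.Prime, (if p ≡ a [MOD q] then cw q H c a else 0) -
      cw q H c a * (((((Icc 1 x).filter (fun p : ℕ => p.Prime)).card : ℝ) /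
        (Nat.totient q : ℝ) : ℝ) : ℂ) := by
    intro a _
    rw [Complex.ofReal_sub, mul_sub]
    congr 1
    unfold piAP
    rw [← sum_filter, filter_filter, sum_const, nsmul_eq_mul, mul_comm]
    push_cast
    rfl
  have hB := cw_sum H c (fun _ => (((((Icc 1 x).filter (fun p : ℕ => p.Prime)).card : ℝ) /
        (Nat.totient q : ℝ) : ℝ) : ℂ))
  rw [sum_congr rfl h1, sum_sub_distrib, hB, sum_comm]
  have h2 : ∀ p ∈ (Icc 1 x).filter Nat.Prime,
      ∑ a ∈ units q, (if p ≡ a [MOD q] then cw q H c a else 0) =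
      if ∃ h ∈ H, (p : ZMod q) = ((c * h : (ZMod q)ˣ) : ZMod q) then 1 / (Nat.card H : ℂ) else 0 := by
    intro p _
    have h3 : ∀ a ∈ units q, (if p ≡ a [MOD q] then cw q H c a else 0) =
        cw q H c a * (if (p : ZMod q) = (a : ZMod q) then (1:ℂ) else 0) := by
      intro a _
      have h4 : (p ≡ a [MOD q]) ↔ (p : ZMod q) = (a : ZMod q) := (ZMod.natCast_eq_natCast_iff p a q).symm
      by_cases h5 : p ≡ a [MOD q]
      · rw [if_pos h5, if_pos (h4.1 h5), mul_one]
      · rw [if_neg h5, if_neg (fun h => h5 (h4.2 h)), mul_zero]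
    have hC := cw_sum H c (fun y => if (p : ZMod q) = y then (1:ℂ) else 0)
    rw [sum_congr rfl h3, hC]
    by_cases h6 : ∃ h ∈ H, (p : ZMod q) = ((c * h : (ZMod q)ˣ) : ZMod q)
    · rw [if_pos h6]
      obtain ⟨h, hh, he⟩ := h6
      rw [sum_eq_single (⟨h, hh⟩ : H)]
      · simp only [if_pos he, mul_one]
      · intro b _ hb
        rw [if_neg]
        intro h7
        apply hb
        apply Subtype.ext
        rw [he] at h7
        exact (mul_left_cancel (Units.ext h7)).symm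
      · intro h7
        exact absurd (mem_univ _) h7
    · rw [if_neg h6]
      have : ∑ h : H, (if (p : ZMod q) = ((c * (h : (ZMod q)ˣ) : (ZMod q)ˣ) : ZMod q) then (1:ℂ) else 0) = 0 := by
        apply sum_eq_zero
        intro h _
        rw [if_neg]
        intro h7
        exact h6 ⟨h, h.2, h7⟩
      rw [this, mul_zero]
  rw [sum_congr rfl h2, ← sum_filter, filter_filter, sum_const, sum_const, nsmul_eq_mul, nsmul_eq_mul,
    card_univ, ← Nat.card_eq_fintype_card]
  unfold cosetCount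
  push_cast
  field_simp

end Pool.Agent.W5h32.EH
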