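import Pool.Agent.W5h32.EH.Avg

/-!
The choice of the parameters.
-/

set_option autoImplicit false
set_option maxHeartbeats 1000000

open Finset Filter

namespace Pool.Agent.W5h32.EH

open Pool.Agent.H398R2.BV (Prim card_prim_le)
open Pool.Agent.Helper112
open Pool.Agent.H442R2.EHI (piAP)
open Pool.Agent.H441R3.BV
open Pool.Agent.TH926.EH
open Classical

lemma rpow_mono' {X a b : ℝ} (hX : 1 ≤ X) (h : a ≤ b) : X ^ a ≤ X ^ b :=
  Real.rpow_le_rpow_of_exponent_le hX h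

lemma floor_lower {y : ℝ} (hy : 1 ≤ y) : y / 2 ≤ (⌊y⌋₊ : ℝ) := by
  have h1 : y < ⌊y⌋₊ + 1 := Nat.lt_floor_add_one y
  have h2 : 1 ≤ ⌊y⌋₊ := (Nat.one_le_floor_iff y).2 hy
  have h3 : (1:ℝ) ≤ (⌊y⌋₊ : ℝ) := by exact_mod_cast h2
  linarith

lemma natlog_le (D : ℕ) (L : ℝ) (hL : 2 ≤ L) (hD : Real.log D ≤ L) (hD1 : 1 ≤ D) :
    (Nat.log 2 D : ℝ) + 1 ≤ 4 * L := by
  have h1 : (Nat.log 2 D : ℝ) ≤ Real.logb 2 D := Real.natLog_le_logb D 2
  have h2 : Real.logb 2 D = Real.log D / Real.log 2 := rfl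
  have h3 : (0.69 : ℝ) < Real.log 2 := by
    have := Real.log_two_gt_d9
    linarith
  have h4 : 0 ≤ Real.log D := Real.log_nonneg (by exact_mod_cast hD1)
  have h5 : Real.log D / Real.log 2 ≤ 2 * L := by
    rw [div_le_iff₀ (by linarith)]
    nlinarith
  rw [h2] at h1
  linarith

/-- the algebra -/
lemma asm (a1 low q H mn RR W l Y K NN : ℝ) (hl : 8 ≤ l) (hY : 0 ≤ Y) (hW : 1 ≤ W)
    (g1 : a1 ^ 2 * (K * W) ≤ l ^ 2 * Y) (g2 : q ≤ Y)
    (b : ℝ) (hb0 : 0 ≤ b) (hb : 2 * b ≤ l)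
    (g3 : NN * mn / W ≤ Y) (g3' : 0 ≤ NN * mn) (c : ℝ) (hc0 : 0 ≤ c) (hc : c ≤ l) (d : ℝ) (hd0 : 0 ≤ d) (hd : d ≤ l)
    (ha1 : a1 ^ 2 ≤ l ^ 2)
    (g4 : RR / W ≤ 48 * Y) (g4' : 0 ≤ RR) (g5 : H / W ^ 3 ≤ (5760 + 384 * l ^ 3) * Y) (g5' : 0 ≤ H) :
    a1 ^ 2 * (K * W) + (low + q * (2 * b)) +
      (a1 ^ 2 * (720 * (NN * mn) + c * d ^ 2 * RR) + q * (2 * (2 * b) ^ 2)) / W +
      (a1 ^ 2 * H + q * (8 * (2 * b) ^ 4)) / W ^ 3 + q * (2 * b) ≤ low + 7000 * l ^ 5 * Y := by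
  have hW0 : 0 < W := by linarith
  have hW3 : 1 ≤ W ^ 3 := one_le_pow₀ hW
  have hW30 : 0 < W ^ 3 := by positivity
  have hl0 : 0 ≤ l := by linarith
  have ha : 0 ≤ a1 ^ 2 := sq_nonneg _
  have l1 : 1 ≤ l := by linarith
  have q0 : q / W ≤ Y := by
    rw [div_le_iff₀ hW0]
    nlinarith
  have q3 : q / W ^ 3 ≤ Y := by
    rw [div_le_iff₀ hW30]
    nlinarith
  have e1 : q * (2 * b) ≤ Y * l := mul_le_mul g2 hb (by positivity) hY
  have e2 : (a1 ^ 2 * (720 * (NN * mn) + c * d ^ 2 * RR) + q * (2 * (2 * b) ^ 2)) / W =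
      a1 ^ 2 * (720 * (NN * mn / W) + c * d ^ 2 * (RR / W)) + (q / W) * (2 * (2 * b) ^ 2) := by
    field_simp
  have e3 : (a1 ^ 2 * H + q * (8 * (2 * b) ^ 4)) / W ^ 3 =
      a1 ^ 2 * (H / W ^ 3) + (q / W ^ 3) * (8 * (2 * b) ^ 4) := by
    field_simp
  have e4 : a1 ^ 2 * (720 * (NN * mn / W) + c * d ^ 2 * (RR / W)) ≤
      l ^ 2 * (720 * Y + l * l ^ 2 * (48 * Y)) := by
    have : 0 ≤ RR / W := by positivity
    have : 0 ≤ NN * mn / W := by positivity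
    gcongr
  have e5 : (q / W) * (2 * (2 * b) ^ 2) ≤ Y * (2 * l ^ 2) := by
    gcongr
  have e6 : a1 ^ 2 * (H / W ^ 3) ≤ l ^ 2 * ((5760 + 384 * l ^ 3) * Y) := by
    gcongr
  have e7 : (q / W ^ 3) * (8 * (2 * b) ^ 4) ≤ Y * (8 * l ^ 4) := by
    gcongr
  rw [e2, e3]
  have p1 : l ≤ l ^ 5 := le_self_pow₀ l1 (by norm_num)
  have p2 : l ^ 2 ≤ l ^ 5 := pow_le_pow_right₀ l1 (by norm_num)
  have p4 : l ^ 4 ≤ l ^ 5 := pow_le_pow_right₀ l1 (by norm_num)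
  have s1 : l ^ 2 * (720 * Y + l * l ^ 2 * (48 * Y)) = 720 * (l ^ 2 * Y) + 48 * (l ^ 5 * Y) := by ring
  have s2 : l ^ 2 * ((5760 + 384 * l ^ 3) * Y) = 5760 * (l ^ 2 * Y) + 384 * (l ^ 5 * Y) := by ring
  have t1 : l * Y ≤ l ^ 5 * Y := mul_le_mul_of_nonneg_right p1 hY
  have t2 : l ^ 2 * Y ≤ l ^ 5 * Y := mul_le_mul_of_nonneg_right p2 hY
  have t4 : l ^ 4 * Y ≤ l ^ 5 * Y := mul_le_mul_of_nonneg_right p4 hY
  have t5 : 0 ≤ l ^ 5 * Y := by positivity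
  rw [s1] at e4
  rw [s2] at e6
  linarith

theorem fin (θ ε : ℝ) (h1 : 1 / 2 ≤ θ) (h2 : θ < 1) (hε : 0 < ε) (U : ℕ) :
    ∃ C : ℝ, 0 ≤ C ∧ ∃ x0 : ℕ, ∀ N : ℕ, x0 ≤ N → ∀ w : ℕ → ℕ → ℂ, ∀ S : Finset ℕ,
      S ⊆ Icc 1 ⌊(N : ℝ) ^ θ⌋₊ →
      (∀ q ∈ S, ∀ χ : DirichletCharacter ℂ q, ‖hat q (w q) χ‖ ≤ 1) →
      (∀ q ∈ S, ∑ χ : DirichletCharacter ℂ q, ‖hat q (w q) χ‖ ≤ (N : ℝ) ^ (max (1 - θ) (1 / 4) - ε)) →
      ∑ q ∈ S, ‖∑ a ∈ units q, w q a * ((piAP N q a -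
        (((Icc 1 N).filter (fun p : ℕ => p.Prime)).card : ℝ) / (Nat.totient q : ℝ) : ℝ) : ℂ)‖ ≤
        C * (N / Real.log N ^ U) := by
  set κ : ℝ := max (1 - θ) (1 / 4) with hκ
  have κ1 : 1 - θ ≤ κ := le_max_left _ _
  have κ2 : 1 / 4 ≤ κ := le_max_right _ _
  have κ3 : κ ≤ 1 / 2 := max_le (by linarith) (by norm_num)
  set δ : ℝ := min (ε / 8) (1 / 8) with hδ
  have δ0 : 0 < δ := lt_min (by linarith) (by norm_num)
  have δ1 : δ ≤ ε / 8 := min_le_left _ _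
  have δ2 : δ ≤ 1 / 8 := min_le_right _ _
  set η : ℝ := min (ε / 4) (1 - θ) with hη
  have η0 : 0 < η := lt_min (by linarith) (by linarith)
  have η1 : η ≤ ε / 4 := min_le_left _ _
  have η2 : η ≤ 1 - θ := min_le_right _ _
  obtain ⟨C0, hC0, n0, hn0, hlow⟩ := low_cond (U + 2) δ δ0
  have evx : ∀ᶠ X : ℝ in atTop, (2:ℝ) ≤ Real.log X ∧ 7168000 * Real.log X ^ (U + 5) ≤ X ^ η ∧ 4 ≤ X :=
    (Real.tendsto_log_atTop.eventually (eventually_ge_atTop 2)).and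
      ((Pool.Agent.H398R2.BV.ev_log 7168000 (U + 5) η η0).and (eventually_ge_atTop 4))
  have evN := tendsto_natCast_atTop_atTop (R := ℝ) |>.eventually evx
  obtain ⟨x0, hx0⟩ := eventually_atTop.1 evN
  refine ⟨4 * C0 + 1, by positivity, max x0 n0, fun N hN' w S hS hw hw2 => ?_⟩
  obtain ⟨w1, w2, w3⟩ := hx0 N ((le_max_left _ _).trans hN')
  have hNn0 : n0 ≤ N := (le_max_right _ _).trans hN'
  set X : ℝ := (N : ℝ) with hX
  set Λ : ℝ := Real.log X with hΛ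
  have hX0 : 0 < X := by linarith
  have hX1 : 1 ≤ X := by linarith
  have hΛ0 : 0 < Λ := by linarith
  set Q := ⌊X ^ θ⌋₊ with hQ
  set R := ⌊X ^ (1 / 2 - δ)⌋₊ with hR
  set R2 := ⌊X ^ (3 / 4 : ℝ)⌋₊ with hR2
  set W : ℝ := X ^ (1 - κ + ε / 2) with hWdef
  set K : ℝ := X ^ (κ - ε) with hK
  set Y : ℝ := X ^ (1 - η) with hY
  have hY0 : 0 < Y := Real.rpow_pos_of_pos hX0 _
  have hW0 : 0 < W := Real.rpow_pos_of_pos hX0 _
  have hK0 : 0 < K := Real.rpow_pos_of_pos hX0 _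
  have hW1 : 1 ≤ W := Real.one_le_rpow hX1 (by linarith)
  have hXθ : 1 ≤ X ^ θ := Real.one_le_rpow hX1 (by linarith)
  have hXR : 1 ≤ X ^ (1 / 2 - δ) := Real.one_le_rpow hX1 (by linarith)
  have hXR2 : 1 ≤ X ^ (3 / 4 : ℝ) := Real.one_le_rpow hX1 (by norm_num)
  have hQ1 : 1 ≤ Q := (Nat.one_le_floor_iff _).2 hXθ
  have hR1 : 1 ≤ R := (Nat.one_le_floor_iff _).2 hXR
  have hR21 : 1 ≤ R2 := (Nat.one_le_floor_iff _).2 hXR2
  have hQle : (Q : ℝ) ≤ X ^ θ := Nat.floor_le (by positivity)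
  have hRle : (R : ℝ) ≤ X ^ (1 / 2 - δ) := Nat.floor_le (by positivity)
  have hR2le : (R2 : ℝ) ≤ X ^ (3 / 4 : ℝ) := Nat.floor_le (by positivity)
  have hRge : X ^ (1 / 2 - δ) / 2 ≤ (R : ℝ) := floor_lower hXR
  have hR2ge : X ^ (3 / 4 : ℝ) / 2 ≤ (R2 : ℝ) := floor_lower hXR2
  have hR0 : (0:ℝ) < R := by exact_mod_cast hR1
  have hR20 : (0:ℝ) < R2 := by exact_mod_cast hR21
  have hQ0 : (0:ℝ) < Q := by exact_mod_cast hQ1
  have hQX : (Q : ℝ) ≤ X := by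
    refine hQle.trans ?_
    calc X ^ θ ≤ X ^ (1:ℝ) := rpow_mono' hX1 h2.le
      _ = X := Real.rpow_one X
  have hlQ0 : 0 ≤ Real.log Q := Real.log_natCast_nonneg Q
  have hlQ : Real.log Q ≤ Λ := Real.log_le_log hQ0 hQX
  set l : ℝ := 4 * Λ with hl
  have hl8 : 8 ≤ l := by linarith
  set mn : ℕ := min Q R2 with hmn
  have hmn1 : 1 ≤ mn := le_min hQ1 hR21
  have hmnQ : (mn : ℝ) ≤ Q := by exact_mod_cast min_le_left _ _
  have hmnR : (mn : ℝ) ≤ R2 := by exact_mod_cast min_le_right _ _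
  have hmn0 : (0:ℝ) < mn := by exact_mod_cast hmn1
  have hlmn0 : 0 ≤ Real.log mn := Real.log_natCast_nonneg _
  have hlmn : Real.log mn ≤ Λ := Real.log_le_log hmn0 (hmnQ.trans hQX)
  -- the power savings
  have f1 : K * W ≤ Y := by
    rw [hK, hWdef, ← Real.rpow_add hX0]
    exact rpow_mono' hX1 (by linarith)
  have f2 : (Q : ℝ) ≤ Y := hQle.trans (rpow_mono' hX1 (by linarith))
  have hmnκ : (mn : ℝ) ≤ X ^ (1 - κ) := by
    rcases le_total θ (3 / 4) with h | h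
    · have : κ = 1 - θ := by rw [hκ]; exact max_eq_left (by linarith)
      rw [this]
      calc (mn : ℝ) ≤ X ^ θ := hmnQ.trans hQle
        _ = X ^ (1 - (1 - θ)) := by congr 1; ring
    · have : κ = 1 / 4 := by rw [hκ]; exact max_eq_right (by linarith)
      rw [this]
      calc (mn : ℝ) ≤ X ^ (3 / 4 : ℝ) := hmnR.trans hR2le
        _ = X ^ (1 - 1 / 4 : ℝ) := by norm_num
  have f3 : X * mn / W ≤ Y := by
    rw [div_le_iff₀ hW0]
    calc X * mn ≤ X ^ (1:ℝ) * X ^ (1 - κ) := by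
          rw [Real.rpow_one]
          gcongr
      _ = X ^ (1 + (1 - κ)) := by rw [← Real.rpow_add hX0]
      _ ≤ X ^ ((1 - η) + (1 - κ + ε / 2)) := rpow_mono' hX1 (by linarith)
      _ = Y * W := by rw [Real.rpow_add hX0]
  have f4 : (24 * X ^ 2 / R) / W ≤ 48 * Y := by
    rw [div_div, div_le_iff₀ (by positivity)]
    have h3 : X ^ 2 = X ^ (2:ℝ) := by norm_cast
    calc 24 * X ^ 2 = 24 * X ^ (2:ℝ) := by rw [h3]
      _ ≤ 24 * X ^ ((1 - η) + (1 / 2 - δ) + (1 - κ + ε / 2)) :=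
          mul_le_mul_of_nonneg_left (rpow_mono' hX1 (by linarith)) (by norm_num)
      _ = 48 * Y * (X ^ (1 / 2 - δ) / 2 * W) := by
          rw [Real.rpow_add hX0, Real.rpow_add hX0]
          ring
      _ ≤ 48 * Y * (R * W) := by gcongr
  obtain ⟨H4, hH0, hH1, hH2⟩ : ∃ H4 : ℝ, 0 ≤ H4 ∧
      ∑ f ∈ Icc 2 Q, (1 / (Nat.totient f : ℝ)) * G {f | R2 < f} 4 N f ≤ H4 ∧
      H4 / W ^ 3 ≤ (5760 + 384 * l ^ 3) * Y := by
    rcases le_or_gt θ (3 / 4) with h | h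
    · refine ⟨0, le_rfl, ?_, ?_⟩
      · apply le_of_eq
        apply four_zero
        exact Nat.floor_le_floor (rpow_mono' hX1 h)
      · rw [zero_div]
        positivity
    · have hκ4 : κ = 1 / 4 := by rw [hκ]; exact max_eq_right (by linarith)
      refine ⟨_, ?_, four_sum N R2 Q hR21 hQ1, ?_⟩
      · positivity
      · have hW3 : W ^ 3 = X ^ (9 / 4 + 3 * ε / 2) := by
          rw [hWdef, hκ4, ← Real.rpow_natCast, ← Real.rpow_mul hX0.le]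
          congr 1
          push_cast
          ring
        rw [hW3, div_le_iff₀ (Real.rpow_pos_of_pos hX0 _)]
        have h3 : X ^ 2 = X ^ (2:ℝ) := by norm_cast
        have h4 : X ^ 4 = X ^ (4:ℝ) := by norm_cast
        have a1 : 5760 * X ^ 2 * Q ≤ 5760 * (Y * X ^ (9 / 4 + 3 * ε / 2)) := by
          calc 5760 * X ^ 2 * Q ≤ 5760 * X ^ (2:ℝ) * X ^ θ := by
                rw [h3]
                gcongr
            _ = 5760 * X ^ (2 + θ) := by rw [Real.rpow_add hX0]; ring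
            _ ≤ 5760 * X ^ ((1 - η) + (9 / 4 + 3 * ε / 2)) :=
                mul_le_mul_of_nonneg_left (rpow_mono' hX1 (by linarith)) (by norm_num)
            _ = _ := by rw [Real.rpow_add hX0]
        have a2 : 192 * X ^ 4 / R2 ≤ 384 * (Y * X ^ (9 / 4 + 3 * ε / 2)) := by
          rw [div_le_iff₀ hR20]
          calc 192 * X ^ 4 = 192 * X ^ (4:ℝ) := by rw [h4]
            _ ≤ 192 * X ^ ((1 - η) + (9 / 4 + 3 * ε / 2) + 3 / 4) :=
                mul_le_mul_of_nonneg_left (rpow_mono' hX1 (by linarith)) (by norm_num)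
            _ = 384 * (Y * X ^ (9 / 4 + 3 * ε / 2)) * (X ^ (3 / 4 : ℝ) / 2) := by
                rw [Real.rpow_add hX0, Real.rpow_add hX0]
                ring
            _ ≤ 384 * (Y * X ^ (9 / 4 + 3 * ε / 2)) * R2 := by gcongr
        have a3 : ((Nat.log 2 Q : ℝ) + 1) * (1 + Real.log Q) ^ 2 ≤ l ^ 3 := by
          have b1 := natlog_le Q Λ w1 hlQ hQ1
          have b2 : (1 + Real.log Q) ^ 2 ≤ l ^ 2 := pow_le_pow_left₀ (by linarith) (by linarith) 2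
          calc ((Nat.log 2 Q : ℝ) + 1) * (1 + Real.log Q) ^ 2 ≤ l * l ^ 2 := by
                apply mul_le_mul b1 b2 (by positivity) (by linarith)
            _ = l ^ 3 := by ring
        have a4 : ((Nat.log 2 Q : ℝ) + 1) * (1 + Real.log Q) ^ 2 * (192 * X ^ 4 / R2) ≤
            l ^ 3 * (384 * (Y * X ^ (9 / 4 + 3 * ε / 2))) :=
          mul_le_mul a3 a2 (by positivity) (by positivity)
        linarith
  have ht := total N R R2 Q hR1 hQ1 w S hS hw K hK0.le hw2 W hW0 H4 hH1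
  rw [← hmn] at ht
  have b1 := natlog_le mn Λ w1 hlmn hmn1
  have hlow1 := hlow N hNn0 R hRle
  have e0 : (1 + Real.log Q) ^ 2 ≤ l ^ 2 := pow_le_pow_left₀ (by linarith) (by linarith) 2
  have hasm := asm (1 + Real.log Q) ((1 + Real.log Q) ^ 2 *
        ∑ f ∈ Icc 2 R, (1 / (Nat.totient f : ℝ)) * ∑ ψ ∈ Prim f, ‖PS N f ψ‖) Q H4 mn (24 * X ^ 2 / R)
    W l Y K X hl8 hY0.le hW1 (by gcongr) f2 (Real.log Q) hlQ0 (by linarith) f3 (by positivity)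
    ((Nat.log 2 mn : ℝ) + 1) (by positivity) b1 (1 + Real.log mn) (by linarith) (by linarith) e0
    f4 (by positivity) hH2 hH0
  have e1 : 720 * X * (mn : ℝ) = 720 * (X * mn) := by ring
  rw [e1] at ht
  refine (ht.trans hasm).trans ?_
  have e2 : (1 + Real.log Q) ^ 2 *
        ∑ f ∈ Icc 2 R, (1 / (Nat.totient f : ℝ)) * ∑ ψ ∈ Prim f, ‖PS N f ψ‖ ≤
      4 * C0 * (X / Λ ^ U) := by
    have e3 : (1 + Real.log Q) ^ 2 ≤ (2 * Λ) ^ 2 := pow_le_pow_left₀ (by linarith) (by linarith) 2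
    calc _ ≤ (2 * Λ) ^ 2 * (C0 * (X / Λ ^ (U + 2))) := by
          apply mul_le_mul e3 hlow1 _ (by positivity)
          exact sum_nonneg fun f _ => mul_nonneg (by positivity) (sum_nonneg fun _ _ => norm_nonneg _)
      _ = _ := by
          rw [pow_add]
          field_simp
          ring
  have e4 : 7000 * l ^ 5 * Y ≤ X / Λ ^ U := by
    rw [le_div_iff₀ (by positivity)]
    calc 7000 * l ^ 5 * Y * Λ ^ U = (7168000 * Λ ^ (U + 5)) * Y := by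
          rw [hl]
          ring
      _ ≤ X ^ η * Y := by gcongr
      _ = X := by
          rw [hY, ← Real.rpow_add hX0]
          have : η + (1 - η) = 1 := by ring
          rw [this, Real.rpow_one]
  have e5 : (4 * C0 + 1) * (X / Λ ^ U) = 4 * C0 * (X / Λ ^ U) + X / Λ ^ U := by ring
  rw [e5]
  linarith

end Pool.Agent.W5h32.EH
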