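import Pool.Agent.W5h32.EH.Mom

/-!
The discrepancy of the primes against a weight on the residues, in terms of the characters.
-/

set_option autoImplicit false

open Finset

namespace Pool.Agent.W5h32.EH

open Pool.Agent.H398R2.BV (Prim card_prim_le)
open Pool.Agent.Helper112
open Pool.Agent.H442R2.EHI (piAP)
open Pool.Agent.H441R3.BV
open Pool.Agent.TH926.EH
open Classical

/-- the reduced residues -/
def units (q : ℕ) : Finset ℕ := (range q).filter (fun a => a.Coprime q)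

/-- the coefficients of a weight with respect to the characters -/
noncomputable def hat (q : ℕ) (w : ℕ → ℂ) (χ : DirichletCharacter ℂ q) : ℂ :=
  ∑ a ∈ units q, w a * χ (a : ZMod q)

/-- the nonprincipal characters -/
noncomputable def nonpr (d : ℕ) : Finset (DirichletCharacter ℂ d) := univ.filter (fun χ => χ ≠ 1)

lemma mem_nonpr {d : ℕ} {χ : DirichletCharacter ℂ d} : χ ∈ nonpr d ↔ χ ≠ 1 := by
  unfold nonpr
  rw [mem_filter]
  simp

lemma piAP_eq (N d a : ℕ) (hd : 1 ≤ d) (ha : a.Coprime d) :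
    ((piAP N d a - (((Icc 1 N).filter (fun p : ℕ => p.Prime ∧ p.Coprime d)).card : ℝ) /
      (Nat.totient d : ℝ) : ℝ) : ℂ) = (1 / (Nat.totient d : ℂ)) *
        ∑ χ ∈ nonpr d, χ⁻¹ (a : ZMod d) * PS N d χ := by
  have : NeZero d := ⟨by omega⟩
  set pd : ℝ := (((Icc 1 N).filter (fun p : ℕ => p.Prime ∧ p.Coprime d)).card : ℝ) with hpd
  have e1 : piAP N d a - pd / (Nat.totient d : ℝ) =
      ∑ n ∈ Icc 1 N, (if n.Prime then (1:ℝ) else 0) * ((if n ≡ a [MOD d] then (1 : ℝ) else 0) -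
      (if n.Coprime d then (1 : ℝ) / (Nat.totient d : ℝ) else 0)) := by
    have e2 : piAP N d a = ∑ n ∈ Icc 1 N, (if n.Prime then (1:ℝ) else 0) *
        (if n ≡ a [MOD d] then (1 : ℝ) else 0) := by
      unfold piAP
      rw [← sum_boole]
      apply sum_congr rfl
      intro n _
      by_cases h1 : n.Prime <;> by_cases h2 : n ≡ a [MOD d] <;> simp [h1, h2]
    have e3 : pd / (Nat.totient d : ℝ) = ∑ n ∈ Icc 1 N, (if n.Prime then (1:ℝ) else 0) *
        (if n.Coprime d then (1 : ℝ) / (Nat.totient d : ℝ) else 0) := by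
      rw [hpd, ← sum_boole, sum_div]
      apply sum_congr rfl
      intro n _
      by_cases h1 : n.Prime
      · by_cases h2 : n.Coprime d
        · rw [if_pos ⟨h1, h2⟩, if_pos h1, if_pos h2]; ring
        · rw [if_neg (by tauto), if_neg h2]; ring
      · rw [if_neg (by tauto), if_neg h1]; ring
    rw [e2, e3, ← sum_sub_distrib]
    apply sum_congr rfl
    intro n _
    ring
  rw [e1, Complex.ofReal_sum]
  have : ∀ n ∈ Icc 1 N, (((if n.Prime then (1:ℝ) else 0) *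
      ((if n ≡ a [MOD d] then (1 : ℝ) else 0) -
    (if n.Coprime d then (1 : ℝ) / (Nat.totient d : ℝ) else 0)) : ℝ) : ℂ) =
      ∑ χ ∈ nonpr d, (1 / (Nat.totient d : ℂ)) * (χ⁻¹ (a : ZMod d) *
          (((if n.Prime then (1:ℝ) else 0 : ℝ) : ℂ) * χ (n : ZMod d))) := by
    intro n _
    rw [Complex.ofReal_mul, BLB.bracket d a ha n, mul_sum, mul_sum]
    refine sum_congr (by ext χ; rw [mem_nonpr]; simp) ?_
    intro χ _
    rw [char_inv_eq d a ha χ]
    ring
  rw [sum_congr rfl this, sum_comm, mul_sum]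
  apply sum_congr rfl
  intro χ _
  unfold PS
  rw [mul_sum, mul_sum]

lemma hat_inv (q : ℕ) (w : ℕ → ℂ) :
    ∑ χ : DirichletCharacter ℂ q, ‖hat q w χ⁻¹‖ = ∑ χ : DirichletCharacter ℂ q, ‖hat q w χ‖ :=
  Equiv.sum_comp (Equiv.inv (DirichletCharacter ℂ q)) (fun χ => ‖hat q w χ‖)

/-- the elementary inequality -/
lemma elem_le (k : ℕ) (t s W : ℝ) (ht0 : 0 ≤ t) (ht1 : t ≤ 1) (hs : 0 ≤ s) (hW : 0 < W) :
    t * s ≤ t * W + s ^ (k + 1) / W ^ k := by
  rcases le_total s W with h | h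
  · have h1 : t * s ≤ t * W := mul_le_mul_of_nonneg_left h ht0
    have h2 : 0 ≤ s ^ (k + 1) / W ^ k := by positivity
    linarith
  · have h1 : t * s ≤ 1 * s := mul_le_mul_of_nonneg_right ht1 hs
    have h2 : s ≤ s ^ (k + 1) / W ^ k := by
      rw [le_div_iff₀ (by positivity), pow_succ, mul_comm]
      exact mul_le_mul_of_nonneg_right (pow_le_pow_left₀ hW.le h k) hs
    have h3 : 0 ≤ t * W := by positivity
    linarith

/-- **the discrepancy against a weight** -/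
theorem key (N d R R2 : ℕ) (hd : 1 ≤ d) (w : ℕ → ℂ) (hw : ∀ χ : DirichletCharacter ℂ d, ‖hat d w χ‖ ≤ 1)
    (W : ℝ) (hW : 0 < W) :
    ‖∑ a ∈ units d, w a * ((piAP N d a - (((Icc 1 N).filter (fun p : ℕ => p.Prime)).card : ℝ) /
      (Nat.totient d : ℝ) : ℝ) : ℂ)‖ ≤
      (1 / (Nat.totient d : ℝ)) * ((∑ χ : DirichletCharacter ℂ d, ‖hat d w χ‖) * W +
        ∑ χ ∈ lowS d R, ‖PS N d χ‖ + (∑ χ ∈ cS d {f | R < f ∧ f ≤ R2}, ‖PS N d χ‖ ^ 2) / W +
        (∑ χ ∈ cS d {f | R2 < f}, ‖PS N d χ‖ ^ 4) / W ^ 3) + d.primeFactors.card := by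
  have : NeZero d := ⟨by omega⟩
  have hφ1 : (1 : ℝ) ≤ Nat.totient d := by exact_mod_cast Nat.totient_pos.mpr (by omega)
  have hφ : (0 : ℝ) < Nat.totient d := by linarith
  set om : ℝ := (d.primeFactors.card : ℝ) with hom
  have hom0 : 0 ≤ om := Nat.cast_nonneg _
  set pd : ℝ := (((Icc 1 N).filter (fun p : ℕ => p.Prime ∧ p.Coprime d)).card : ℝ) with hpd
  set p1 : ℝ := (((Icc 1 N).filter (fun p : ℕ => p.Prime)).card : ℝ) with hp1
  have hsplit : ∑ a ∈ units d, w a * ((piAP N d a - p1 / (Nat.totient d : ℝ) : ℝ) : ℂ) =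
      (1 / (Nat.totient d : ℂ)) *
        ∑ χ ∈ nonpr d, hat d w χ⁻¹ * PS N d χ + (((pd - p1) / (Nat.totient d : ℝ) : ℝ) : ℂ) * hat d w 1 := by
    have h1 : ∀ a ∈ units d, w a * ((piAP N d a - p1 / (Nat.totient d : ℝ) : ℝ) : ℂ) =
        w a * ((1 / (Nat.totient d : ℂ)) *
        ∑ χ ∈ nonpr d, χ⁻¹ (a : ZMod d) * PS N d χ) +
          (((pd - p1) / (Nat.totient d : ℝ) : ℝ) : ℂ) * (w a * (1 : DirichletCharacter ℂ d) (a : ZMod d)) := by
      intro a ha
      unfold units at ha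
      rw [mem_filter] at ha
      rw [← piAP_eq N d a hd ha.2]
      have hau : IsUnit (a : ZMod d) := (ZMod.isUnit_iff_coprime a d).mpr ha.2
      rw [MulChar.one_apply hau]
      rw [← hpd]
      push_cast
      ring
    rw [sum_congr rfl h1, sum_add_distrib, ← mul_sum]
    congr 1
    have h2 : ∀ χ ∈ nonpr d,
        hat d w χ⁻¹ * PS N d χ = ∑ a ∈ units d, w a * (χ⁻¹ (a : ZMod d) * PS N d χ) := by
      intro χ _
      unfold hat
      rw [sum_mul]
      apply sum_congr rfl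
      intro a _
      ring
    rw [sum_congr rfl h2, sum_comm, mul_sum]
    apply sum_congr rfl
    intro a _
    rw [← mul_sum]
    ring
  rw [hsplit]
  refine (norm_add_le _ _).trans ?_
  have hlast : ‖(((pd - p1) / (Nat.totient d : ℝ) : ℝ) : ℂ) * hat d w 1‖ ≤ om := by
    rw [norm_mul, Complex.norm_real, Real.norm_eq_abs]
    have s3 : |pd - p1| ≤ om := coprime_count N d (by omega)
    have t2 : |(pd - p1) / (Nat.totient d : ℝ)| ≤ om := by
      rw [abs_div, abs_of_pos hφ, div_le_iff₀ hφ]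
      nlinarith
    calc |(pd - p1) / (Nat.totient d : ℝ)| * ‖hat d w 1‖ ≤ om * 1 :=
          mul_le_mul t2 (hw 1) (norm_nonneg _) hom0
      _ = om := mul_one _
  apply add_le_add _ hlast
  rw [norm_mul]
  have h1 : ‖(1 / (Nat.totient d : ℂ))‖ = 1 / (Nat.totient d : ℝ) := by
    rw [norm_div, norm_one, Complex.norm_natCast]
  rw [h1]
  apply mul_le_mul_of_nonneg_left _ (by positivity)
  refine (norm_sum_le _ _).trans ?_
  set F := nonpr d with hF
  have h2 : ∀ χ ∈ F, ‖hat d w χ⁻¹ * PS N d χ‖ ≤ ‖hat d w χ⁻¹‖ * W +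
      (if χ.conductor ≤ R then ‖PS N d χ‖ else 0) +
      (if χ.conductor ∈ {f | R < f ∧ f ≤ R2} then ‖PS N d χ‖ ^ 2 / W else 0) +
      (if χ.conductor ∈ {f | R2 < f} then ‖PS N d χ‖ ^ 4 / W ^ 3 else 0) := by
    intro χ _
    rw [norm_mul]
    have a1 := norm_nonneg (hat d w χ⁻¹)
    have a2 := hw χ⁻¹
    have a3 := norm_nonneg (PS N d χ)
    have b1 := elem_le 1 _ _ W a1 a2 a3 hW
    have b2 := elem_le 3 _ _ W a1 a2 a3 hW
    simp only [Set.mem_ofPred_eq]
    have c1 : (0:ℝ) ≤ (if χ.conductor ≤ R then ‖PS N d χ‖ else 0) := by split_ifs <;> positivity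
    have c2 : (0:ℝ) ≤ (if R < χ.conductor ∧ χ.conductor ≤ R2 then ‖PS N d χ‖ ^ 2 / W else 0) := by
      split_ifs <;> positivity
    have c3 : (0:ℝ) ≤ (if R2 < χ.conductor then ‖PS N d χ‖ ^ 4 / W ^ 3 else 0) := by
      split_ifs <;> positivity
    have c0 : 0 ≤ ‖hat d w χ⁻¹‖ * W := by positivity
    by_cases q1 : χ.conductor ≤ R
    · rw [if_pos q1]
      have : ‖hat d w χ⁻¹‖ * ‖PS N d χ‖ ≤ 1 * ‖PS N d χ‖ := mul_le_mul_of_nonneg_right a2 a3
      linarith
    · by_cases q2 : χ.conductor ≤ R2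
      · rw [if_pos (show R < χ.conductor ∧ χ.conductor ≤ R2 from ⟨by omega, q2⟩)]
        norm_num at b1
        linarith
      · rw [if_pos (show R2 < χ.conductor by omega)]
        norm_num at b2
        linarith
  refine (sum_le_sum h2).trans ?_
  rw [sum_add_distrib, sum_add_distrib, sum_add_distrib]
  have g0 : ∑ χ ∈ F, ‖hat d w χ⁻¹‖ * W ≤ (∑ χ : DirichletCharacter ℂ d, ‖hat d w χ‖) * W := by
    rw [← sum_mul, ← hat_inv]
    apply mul_le_mul_of_nonneg_right _ hW.le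
    exact sum_le_sum_of_subset_of_nonneg (subset_univ _) (fun _ _ _ => norm_nonneg _)
  have g1 : ∑ χ ∈ F, (if χ.conductor ≤ R then ‖PS N d χ‖ else 0) = ∑ χ ∈ lowS d R, ‖PS N d χ‖ := by
    rw [← sum_filter]
    apply sum_congr _ fun _ _ => rfl
    ext χ
    rw [hF, mem_filter, mem_nonpr, mem_lowS]
  have g2 : ∑ χ ∈ F, (if χ.conductor ∈ {f | R < f ∧ f ≤ R2} then ‖PS N d χ‖ ^ 2 / W else 0) =
      (∑ χ ∈ cS d {f | R < f ∧ f ≤ R2}, ‖PS N d χ‖ ^ 2) / W := by
    rw [← sum_filter, sum_div]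
    apply sum_congr _ fun _ _ => rfl
    ext χ
    rw [hF, mem_filter, mem_nonpr, mem_cS]
  have g3 : ∑ χ ∈ F, (if χ.conductor ∈ {f | R2 < f} then ‖PS N d χ‖ ^ 4 / W ^ 3 else 0) =
      (∑ χ ∈ cS d {f | R2 < f}, ‖PS N d χ‖ ^ 4) / W ^ 3 := by
    rw [← sum_filter, sum_div]
    apply sum_congr _ fun _ _ => rfl
    ext χ
    rw [hF, mem_filter, mem_nonpr, mem_cS]
  rw [g1, g2, g3]
  linarith

end Pool.Agent.W5h32.EH
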