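import Pool.Agent.TH926.EH.Ave

/-!
Fourth moments of the character sums over the primes, from the large sieve for their squares.
-/

set_option autoImplicit false

open Finset

namespace Pool.Agent.W5h32.EH

open Pool.Agent.H398R2.BV (Prim card_prim_le)
open Pool.Agent.Helper112
open Pool.Agent.H441R3.BV
open Pool.Agent.TH926.EH
open Classical

/-- the representations of `n` as a product of two primes up to `N` -/
noncomputable def pairs (N n : ℕ) : Finset (ℕ × ℕ) :=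
  ((Icc 1 N) ×ˢ (Icc 1 N)).filter (fun z => (z.1.Prime ∧ z.2.Prime) ∧ z.1 * z.2 = n)

lemma pairs_card_le (N n : ℕ) : (pairs N n).card ≤ 2 := by
  rcases (pairs N n).eq_empty_or_nonempty with h | h
  · rw [h]; simp
  · obtain ⟨⟨p, q⟩, hz⟩ := h
    unfold pairs at hz
    rw [mem_filter] at hz
    obtain ⟨_, ⟨hp, hq⟩, hpq⟩ := hz
    simp only at hp hq hpq
    have hsub : pairs N n ⊆ {(p, q), (q, p)} := by
      intro z hz
      unfold pairs at hz
      rw [mem_filter] at hz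
      obtain ⟨_, ⟨h1, h2⟩, h3⟩ := hz
      have h4 : z.1 ∣ p * q := by rw [hpq, ← h3]; exact dvd_mul_right _ _
      rw [mem_insert, mem_singleton]
      rcases (h1.dvd_mul).1 h4 with h5 | h5
      · have h6 : z.1 = p := (Nat.prime_dvd_prime_iff_eq h1 hp).1 h5
        left
        have h7 : p * z.2 = p * q := by rw [← h6, h3, h6, hpq]
        exact Prod.ext h6 (Nat.eq_of_mul_eq_mul_left hp.pos h7)
      · have h6 : z.1 = q := (Nat.prime_dvd_prime_iff_eq h1 hq).1 h5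
        right
        have h7 : q * z.2 = q * p := by rw [← h6, h3, h6, mul_comm q p, hpq]
        exact Prod.ext h6 (Nat.eq_of_mul_eq_mul_left hq.pos h7)
    exact (card_le_card hsub).trans card_le_two

lemma PS_sq (N f : ℕ) (ψ : DirichletCharacter ℂ f) :
    PS N f ψ ^ 2 = ∑ n ∈ Icc 1 (N ^ 2), ((pairs N n).card : ℂ) * ψ (n : ZMod f) := by
  unfold PS
  rw [pow_two, sum_mul_sum, ← sum_product']
  have hmap : ∀ z ∈ (Icc 1 N) ×ˢ (Icc 1 N), z.1 * z.2 ∈ Icc 1 (N ^ 2) := by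
    intro z hz
    rw [mem_product, mem_Icc, mem_Icc] at hz
    rw [mem_Icc]
    constructor
    · exact Nat.mul_pos hz.1.1 hz.2.1
    · rw [pow_two]; exact Nat.mul_le_mul hz.1.2 hz.2.2
  rw [← sum_fiberwise_of_maps_to hmap]
  apply sum_congr rfl
  intro n _
  have h1 : ((pairs N n).card : ℂ) * ψ (n : ZMod f) = ∑ _z ∈ pairs N n, ψ (n : ZMod f) := by
    rw [sum_const, nsmul_eq_mul]
  rw [h1]
  unfold pairs
  have h2 : ((Icc 1 N) ×ˢ (Icc 1 N)).filter (fun z : ℕ × ℕ => (z.1.Prime ∧ z.2.Prime) ∧ z.1 * z.2 = n) =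
      (((Icc 1 N) ×ˢ (Icc 1 N)).filter (fun z : ℕ × ℕ => z.1 * z.2 = n)).filter
        (fun z => z.1.Prime ∧ z.2.Prime) := by
    rw [filter_filter]
    apply filter_congr
    intro z _
    tauto
  rw [h2]
  symm
  rw [sum_filter]
  apply sum_congr rfl
  intro z hz
  rw [mem_filter] at hz
  by_cases h3 : z.1.Prime <;> by_cases h4 : z.2.Prime
  · rw [if_pos h3, if_pos h4, if_pos ⟨h3, h4⟩, ← hz.2]
    push_cast
    rw [map_mul]
    ring
  · rw [if_neg h4, if_neg (by tauto)]; simp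
  · rw [if_neg h3, if_neg (by tauto)]; simp
  · rw [if_neg h3, if_neg (by tauto)]; simp

lemma pairs_sum (N : ℕ) : ∑ n ∈ Icc 1 (N ^ 2), ((pairs N n).card : ℝ) ≤ (N : ℝ) ^ 2 := by
  have h1 : ∑ n ∈ Icc 1 (N ^ 2), (pairs N n).card ≤ ((Icc 1 N) ×ˢ (Icc 1 N)).card := by
    have h2 : ∀ n, (pairs N n).card ≤
        (((Icc 1 N) ×ˢ (Icc 1 N)).filter (fun z : ℕ × ℕ => z.1 * z.2 = n)).card := by
      intro n
      apply card_le_card
      intro z hz
      unfold pairs at hz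
      rw [mem_filter] at hz ⊢
      exact ⟨hz.1, hz.2.2⟩
    refine (sum_le_sum fun n _ => h2 n).trans ?_
    have hmap : ∀ z ∈ (Icc 1 N) ×ˢ (Icc 1 N), (fun z : ℕ × ℕ => z.1 * z.2) z ∈ Icc 1 (N ^ 2) := by
      intro z hz
      rw [mem_product, mem_Icc, mem_Icc] at hz
      rw [mem_Icc]
      constructor
      · exact Nat.mul_pos hz.1.1 hz.2.1
      · rw [pow_two]; exact Nat.mul_le_mul hz.1.2 hz.2.2
    rw [card_eq_sum_card_fiberwise (f := fun z : ℕ × ℕ => z.1 * z.2) (t := Icc 1 (N ^ 2)) hmap]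
  have h3 : ((Icc 1 N) ×ˢ (Icc 1 N)).card = N ^ 2 := by
    rw [card_product, Nat.card_Icc, pow_two]
    simp
  rw [h3] at h1
  exact_mod_cast h1

/-- the large sieve for the squares -/
lemma ls_four (N F : ℕ) :
    ∑ f ∈ Icc 1 F, ((f : ℝ) / (Nat.totient f : ℝ)) * ∑ ψ ∈ Prim f, ‖PS N f ψ‖ ^ 4 ≤
      12 * ((N : ℝ) ^ 2 + (F:ℝ) ^ 2) * (N : ℝ) ^ 2 := by
  have h1 := mult_large_sieve (N ^ 2) F (fun n => ((pairs N n).card : ℂ))
  have h2 : ∑ n ∈ Icc 1 (N ^ 2), ‖((pairs N n).card : ℂ)‖ ^ 2 ≤ 2 * (N : ℝ) ^ 2 := by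
    calc ∑ n ∈ Icc 1 (N ^ 2), ‖((pairs N n).card : ℂ)‖ ^ 2
        ≤ ∑ n ∈ Icc 1 (N ^ 2), 2 * ((pairs N n).card : ℝ) := by
          apply sum_le_sum
          intro n _
          rw [Complex.norm_natCast, pow_two]
          apply mul_le_mul_of_nonneg_right _ (Nat.cast_nonneg _)
          exact_mod_cast pairs_card_le N n
      _ = 2 * ∑ n ∈ Icc 1 (N ^ 2), ((pairs N n).card : ℝ) := by rw [mul_sum]
      _ ≤ _ := by
          have := pairs_sum N
          linarith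
  have h3 : ∑ f ∈ Icc 1 F, ((f : ℝ) / (Nat.totient f : ℝ)) * ∑ ψ ∈ Prim f, ‖PS N f ψ‖ ^ 4 =
      ∑ f ∈ Icc 1 F, ((f : ℝ) / (Nat.totient f : ℝ)) *
      ∑ χ ∈ (univ : Finset (DirichletCharacter ℂ f)).filter (fun χ => χ.IsPrimitive),
        ‖∑ n ∈ Icc 1 (N ^ 2), ((pairs N n).card : ℂ) * χ (n : ZMod f)‖ ^ 2 := by
    apply sum_congr rfl
    intro f _
    unfold Prim
    congr 1
    apply sum_congr rfl
    intro χ _
    rw [← PS_sq, norm_pow, ← pow_mul]
  rw [h3]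
  refine h1.trans ?_
  push_cast
  calc 6 * ((N : ℝ) ^ 2 + (F:ℝ) ^ 2) * ∑ n ∈ Icc 1 (N ^ 2), ‖((pairs N n).card : ℂ)‖ ^ 2
      ≤ 6 * ((N : ℝ) ^ 2 + (F:ℝ) ^ 2) * (2 * (N : ℝ) ^ 2) := by gcongr
    _ = _ := by ring

/-- the general step from moduli to conductors, for the moment of order `k` of the characters with a
conductor in a set `I` -/
noncomputable def G (I : Set ℕ) (k N f : ℕ) : ℝ :=
  if f ∈ I then 2 ^ (k - 1) * ∑ ψ ∈ Prim f, ‖PS N f ψ‖ ^ k else 0

lemma G_nonneg (I : Set ℕ) (k N f : ℕ) : 0 ≤ G I k N f := by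
  unfold G
  split_ifs
  · exact mul_nonneg (by positivity) (sum_nonneg fun _ _ => by positivity)
  · exact le_rfl

/-- the nonprincipal characters with a conductor in `I` -/
noncomputable def cS (d : ℕ) (I : Set ℕ) : Finset (DirichletCharacter ℂ d) :=
  univ.filter (fun χ => χ ≠ 1 ∧ χ.conductor ∈ I)

lemma mem_cS {d : ℕ} {I : Set ℕ} {χ : DirichletCharacter ℂ d} :
    χ ∈ cS d I ↔ χ ≠ 1 ∧ χ.conductor ∈ I := by
  unfold cS
  rw [mem_filter]
  simp

lemma sum_cond (N d k : ℕ) (I : Set ℕ) (hd : 1 ≤ d) :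
    ∑ χ ∈ cS d I, ‖PS N d χ‖ ^ k ≤
      ∑ f ∈ d.divisors.filter (fun f => f ≠ 1), G I k N f +
        2 ^ (k - 1) * Nat.totient d * (d.primeFactors.card : ℝ) ^ k := by
  have : NeZero d := ⟨by omega⟩
  set w : ℝ := (d.primeFactors.card : ℝ) with hw
  have hw0 : 0 ≤ w := Nat.cast_nonneg _
  have h1 := BLB.step2 d
    (fun χ => if χ.conductor ∈ I then max (‖PS N d χ‖ ^ k - 2 ^ (k - 1) * w ^ k) 0 else 0)
    (fun χ => by split_ifs; exacts [le_max_right _ _, le_rfl])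
    (fun f ψ => if ψ.conductor ∈ I then 2 ^ (k - 1) * ‖PS N f ψ‖ ^ k else 0) (by
      intro f hf ψ
      rw [DirichletCharacter.conductor_changeLevel]
      split_ifs
      · apply max_le _ (by positivity)
        have h2 := PS_change N d f (by omega) hf ψ
        have h3 : ‖PS N d (DirichletCharacter.changeLevel hf ψ)‖ ^ k ≤ (‖PS N f ψ‖ + w) ^ k :=
          pow_le_pow_left₀ (norm_nonneg _) h2 k
        have h4 := add_pow_le (norm_nonneg (PS N f ψ)) hw0 k
        linarith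
      · exact le_rfl)
  have h2 : ∑ f ∈ d.divisors.filter (fun f => f ≠ 1),
        ∑ ψ ∈ (univ : Finset (DirichletCharacter ℂ f)).filter (fun χ => χ.IsPrimitive),
          (if ψ.conductor ∈ I then 2 ^ (k - 1) * ‖PS N f ψ‖ ^ k else 0) =
      ∑ f ∈ d.divisors.filter (fun f => f ≠ 1), G I k N f := by
    apply sum_congr rfl
    intro f _
    unfold G
    have h3 : ∀ ψ ∈ (univ : Finset (DirichletCharacter ℂ f)).filter (fun χ => χ.IsPrimitive),
        (if ψ.conductor ∈ I then (2:ℝ) ^ (k - 1) * ‖PS N f ψ‖ ^ k else 0) =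
          (if f ∈ I then 2 ^ (k - 1) * ‖PS N f ψ‖ ^ k else 0) := by
      intro ψ hψ
      rw [mem_filter] at hψ
      have h4 : ψ.conductor = f := hψ.2
      rw [h4]
    rw [sum_congr rfl h3]
    split_ifs
    · rw [mul_sum]; rfl
    · simp
  rw [h2] at h1
  have h5 : ∑ χ ∈ cS d I, ‖PS N d χ‖ ^ k ≤
      ∑ χ ∈ (univ : Finset (DirichletCharacter ℂ d)).filter (fun χ => χ ≠ 1),
        ((if χ.conductor ∈ I then max (‖PS N d χ‖ ^ k - 2 ^ (k - 1) * w ^ k) 0 else 0) +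
          2 ^ (k - 1) * w ^ k) := by
    have h6 : cS d I ⊆ (univ : Finset (DirichletCharacter ℂ d)).filter (fun χ => χ ≠ 1) := by
      intro χ hχ
      rw [mem_filter]
      exact ⟨mem_univ _, (mem_cS.1 hχ).1⟩
    calc ∑ χ ∈ cS d I, ‖PS N d χ‖ ^ k ≤ ∑ χ ∈ cS d I,
          ((if χ.conductor ∈ I then max (‖PS N d χ‖ ^ k - 2 ^ (k - 1) * w ^ k) 0 else 0) +
            2 ^ (k - 1) * w ^ k) := by
          apply sum_le_sum
          intro χ hχ
          rw [if_pos (mem_cS.1 hχ).2]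
          have := le_max_left (‖PS N d χ‖ ^ k - 2 ^ (k - 1) * w ^ k) 0
          linarith
      _ ≤ _ := by
          apply sum_le_sum_of_subset_of_nonneg h6
          intro χ _ _
          split_ifs
          · exact add_nonneg (le_max_right _ _) (by positivity)
          · positivity
  refine h5.trans ?_
  rw [sum_add_distrib, sum_const, nsmul_eq_mul]
  have h7 : (((univ : Finset (DirichletCharacter ℂ d)).filter (fun χ => χ ≠ 1)).card : ℝ) ≤
      (Nat.totient d : ℝ) := by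
    have h6 := DirichletCharacter.card_eq_totient_of_hasEnoughRootsOfUnity ℂ d
    rw [← h6, Nat.card_eq_fintype_card]
    exact_mod_cast (card_filter_le _ _)
  have h8 : (((univ : Finset (DirichletCharacter ℂ d)).filter (fun χ => χ ≠ 1)).card : ℝ) *
      (2 ^ (k - 1) * w ^ k) ≤ (Nat.totient d : ℝ) * (2 ^ (k - 1) * w ^ k) :=
    mul_le_mul_of_nonneg_right h7 (by positivity)
  calc _ ≤ ∑ f ∈ d.divisors.filter (fun f => f ≠ 1), G I k N f +
        (Nat.totient d : ℝ) * (2 ^ (k - 1) * w ^ k) := add_le_add h1 h8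
    _ = _ := by ring

end Pool.Agent.W5h32.EH
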